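import Mathlib
import Pool.Agent.H459R3.CotypeTwo

/-!
Let `N ≥ n` and let `X_1, …, X_N` be independent standard Gaussian vectors in `ℝ^n`. If
`N ≤ K' n` then, with probability at least `1 - 2 e^{-n}`, the space `ℝ^n` normed by the Minkowski
functional of `conv {± X_i}` has cotype `q` with constant at most `C(K')`, simultaneously for all
`q ≥ 2`. In particular it has cotype 2.
-/

set_option autoImplicit false

open MeasureTheory ProbabilityTheory

namespace Pool.Agent.Results.MP_28cf54_an.CotypeTwo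

/-- The law of `N` independent standard Gaussian vectors in `ℝ^n`. -/
noncomputable def gaussianVectors (N n : ℕ) : Measure (Fin N → Fin n → ℝ) :=
  Measure.pi fun _ : Fin N => Measure.pi fun _ : Fin n => gaussianReal 0 1

/-- The Minkowski functional of `P = conv {± X_i : i}`. -/
noncomputable def polytopeNorm {N n : ℕ} (X : Fin N → Fin n → ℝ) (x : Fin n → ℝ) : ℝ :=
  gauge (convexHull ℝ {y | ∃ i, y = X i ∨ y = -X i}) x

/-- `(ℝ^n, nrm)` has cotype `q` with constant at most `C`: for all `k` and `y_1, …, y_k`,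
`C^{-q} ∑ ‖y_i‖^q ≤ E_σ ‖∑ σ_i y_i‖^q`, where `σ` is uniform on `{-1,1}^k`. -/
def HasCotype {n : ℕ} (nrm : (Fin n → ℝ) → ℝ) (q C : ℝ) : Prop :=
  ∀ (k : ℕ) (y : Fin k → Fin n → ℝ),
    C ^ (-q) * ∑ i, nrm (y i) ^ q ≤
      (∑ σ : Fin k → Bool, nrm (∑ i, (if σ i then (1 : ℝ) else -1) • y i) ^ q) / 2 ^ k

/-- For every `K' ≥ 1` there is `C` such that for all `1 ≤ n ≤ N ≤ K' n`, with probability at
least `1 - 2 e^{-n}` the gauge of `conv {± X_i}` is a norm whose cotype `q` constant is at most `C`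
for every `q ≥ 2`. -/
theorem result : ∀ K' : ℝ, 1 ≤ K' → ∃ C : ℝ, 1 ≤ C ∧ ∀ n N : ℕ, 1 ≤ n → n ≤ N → (N : ℝ) ≤ K' * n →
    ENNReal.ofReal (1 - 2 * Real.exp (-n)) ≤
      gaussianVectors N n {X | (∀ x, x ≠ 0 → 0 < polytopeNorm X x) ∧
        (∀ x y, polytopeNorm X (x + y) ≤ polytopeNorm X x + polytopeNorm X y) ∧
        (∀ (r : ℝ) x, polytopeNorm X (r • x) = |r| * polytopeNorm X x) ∧
        ∀ q : ℝ, 2 ≤ q → HasCotype (polytopeNorm X) q C} := by
  intro K' hK'
  obtain ⟨K, hK, hbad⟩ := H459R3.small_regime K' hK'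
  refine ⟨√K, Real.one_le_sqrt.2 hK, fun n N hn hnN hNK => ?_⟩
  have hN0 : 0 < N := by omega
  refine H459R3.prob_ge (H459R3.mu N n) _ {g | H459R3.Good2 g K} ?_ (by positivity)
    (hbad N n (by omega) hnN hNK)
  rintro g ⟨hg, h⟩
  have hset : {y | ∃ i, y = g i ∨ y = -g i} = Set.range g ∪ Set.range (-g) := by
    ext y
    constructor
    · rintro ⟨i, hi | hi⟩
      · exact Or.inl ⟨i, hi.symm⟩
      · exact Or.inr ⟨i, hi.symm⟩
    · rintro (⟨i, hi⟩ | ⟨i, hi⟩)
      · exact ⟨i, Or.inl hi.symm⟩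
      · exact ⟨i, Or.inr hi.symm⟩
  have hnorm : ∀ x, polytopeNorm g x = H459R3.xn g x := by
    intro x
    unfold polytopeNorm
    rw [hset]
    exact H459R3.gauge_eq hN0 hg x
  refine ⟨fun x hx => ?_, fun x y => ?_, fun r x => ?_, fun q hq k y => ?_⟩
  · rw [hnorm]
    refine lt_of_le_of_ne (H459R3.xn_nonneg g x) fun h0 => hx ?_
    obtain ⟨t, ht, ht1⟩ := H459R3.xn_attained hg x
    rw [← h0] at ht1
    have h2 := H459R3.norm_le_l1 t
    rw [ht1] at h2
    have h3 : t = 0 := norm_le_zero_iff.1 h2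
    rw [← ht, h3, map_zero]
  · simp only [hnorm]
    exact map_add_le_add (H459R3.xs hg) x y
  · simp only [hnorm]
    have := map_smul_eq_mul (H459R3.xs hg) r x
    rw [Real.norm_eq_abs] at this
    exact this
  · simp only [hnorm]
    have h1 := H459R3.good2_cotype hK hg h hq k y
    refine h1.trans (le_of_eq ?_)
    unfold H459R3.avg
    rw [Fintype.card_fin]
    rfl

end Pool.Agent.Results.MP_28cf54_an.CotypeTwo
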